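import Pool.Agent.Helper1.UQ.St1

/-!
# Module HLB of project UQ: the FKG lower bound for closed edges
-/

set_option autoImplicit false

open Finset

namespace Pool.Agent.Helper72.UQ

open Classical Pool.Agent.Helper30.RCU Pool.Agent.Helper1.UQ

universe u

private theorem nt_anti {ι : Type u} (T : Finset ι) : Antitone (nt T) := by
  intro ω ω' h
  unfold nt
  split_ifs with h1 h2 h2
  · exact le_rfl
  · exact absurd (Finset.disjoint_of_subset_left h h1) h2
  · exact zero_le_one
  · exact le_rfl

private theorem oe_mono {ι : Type u} (e : ι) : Monotone (oe e) := by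
  intro ω ω' h
  unfold oe
  split_ifs with h1 h2 h2
  · exact le_rfl
  · exact absurd (h h1) h2
  · exact zero_le_one
  · exact le_rfl

private theorem oe_nonneg {ι : Type u} (e : ι) (ω : Finset ι) : 0 ≤ oe e ω := by
  unfold oe
  split_ifs <;> norm_num


private theorem nt_insert {ι : Type u} (T : Finset ι) (e : ι) (ω : Finset ι) :
    nt (insert e T) ω = nt T ω - nt T ω * oe e ω := by
  unfold nt oe
  by_cases h1 : e ∈ ω
  · have h2 : ¬ Disjoint ω (insert e T) := by
      rw [Finset.disjoint_left]
      intro h
      exact h h1 (Finset.mem_insert_self e T)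
    rw [if_neg h2, if_pos h1]
    ring
  · rw [if_neg h1]
    have h2 : Disjoint ω (insert e T) ↔ Disjoint ω T := by
      rw [Finset.disjoint_insert_right]
      exact ⟨fun h => h.2, fun h => ⟨h1, h⟩⟩
    simp only [h2]
    ring

theorem hHLB : StHLB := by
  intro V ι φ p q hp hp1 hq E k e b hb
  induction k with
  | zero =>
    intro _
    have h1 : nt ((Finset.range 0).image e) = fun _ => (1 : ℝ) := by
      funext ω
      unfold nt
      simp
    unfold cl
    rw [h1, ex_const hp hp1 hq, pow_zero]
  | succ k ih =>
    intro hk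
    have ih' := ih fun j hj => hk j (Nat.lt_succ_of_lt hj)
    have hbk := hk k (Nat.lt_succ_self k)
    set T := (Finset.range k).image e with hT
    have h1 : (Finset.range (k + 1)).image e = insert (e k) T := by
      rw [Finset.range_add_one, Finset.image_insert]
    have h2 : cl φ p q E (insert (e k) T)
        = ex φ p q E (nt T) - ex φ p q E (fun ω => nt T ω * oe (e k) ω) := by
      unfold cl
      rw [← ex_sub]
      congr 1
      funext ω
      exact nt_insert T (e k) ω
    have h3 := ex_fkg_anti (φ := φ) hp hp1 hq E (oe_nonneg (e k)) (nt_anti T) (oe_mono (e k))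
    have h4 : ex φ p q E (fun ω => 1 - oe (e k) ω) = 1 - ex φ p q E (oe (e k)) := by
      rw [ex_sub, ex_const hp hp1 hq]
    rw [h4] at hbk
    rw [h1, h2, pow_succ]
    have h5 : b ^ k * b ≤ cl φ p q E T * (1 - ex φ p q E (oe (e k))) :=
      mul_le_mul ih' hbk hb ((pow_nonneg hb k).trans ih')
    have h6 : cl φ p q E T = ex φ p q E (nt T) := rfl
    rw [h6] at h5
    linarith

end Pool.Agent.Helper72.UQ
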